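import Pool.Agent.Work.MP_baf0bc_nt.Final

set_option autoImplicit false

open Filter

namespace Pool.Agent.Results.MP_2efb47_nt.ItineraryComplexity

open Pool.Agent.Work.MP_baf0bc_nt

/-- The modified `3x+1` map. -/
def V (n : ℕ) : ℕ := if n % 2 = 0 then n / 2 else if n % 4 = 1 then (n + 1) / 2 else (3 * n + 1) / 2

/-- If the itinerary modulo `4` of an orbit of `V` has factor complexity `O(m)`, the orbit is
eventually periodic. -/
theorem result (n : ℕ) (C : ℕ)
    (h : ∀ᶠ m : ℕ in atTop, cpx (fun k : ℕ => V^[k] n % 4) m ≤ C * m) :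
    ∃ j p : ℕ, 1 ≤ p ∧ V^[j + p] n = V^[j] n := by
  by_contra hcon
  have hinj : Function.Injective (fun k : ℕ => ((V^[k] n : ℕ) : ℤ)) := by
    intro i j hij
    have hij' : V^[i] n = V^[j] n := Int.natCast_inj.mp hij
    by_contra hne
    rcases lt_or_gt_of_ne hne with h1 | h1
    · exact hcon ⟨i, j - i, by omega, by rw [Nat.add_sub_cancel' h1.le, hij']⟩
    · exact hcon ⟨j, i - j, by omega, by rw [Nat.add_sub_cancel' h1.le, hij']⟩
  have := not_linear 3 2 (by norm_num) le_rfl (by norm_num) (fun k : ℕ => V^[k] n % 4) ?_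
    (fun c => if c = 3 then 1 else 0) (fun c => if c % 2 = 1 then 1 else 0)
    (fun k : ℕ => ((V^[k] n : ℕ) : ℤ)) ?_ hinj C
  · obtain ⟨m, h1, h2⟩ := (this.and_eventually h).exists
    omega
  · refine (Set.finite_lt_nat 4).subset ?_
    rintro _ ⟨k, rfl⟩
    exact Nat.mod_lt _ (by norm_num)
  · intro k
    rw [Function.iterate_succ_apply']
    generalize V^[k] n = y
    unfold V
    split_ifs <;> push_cast <;> omega

end Pool.Agent.Results.MP_2efb47_nt.ItineraryComplexity
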