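import Pool.Agent.Work.MP_2efb47_nt.D.Mn5

/-! The minimum of the orbit of `n` under `V` has a limit law in natural density, and the support of this law. -/

open Filter Topology

namespace Pool.Agent.Results.MP_2efb47_nt.MinimumLaw

/-- The map of the problem. -/
def V (n : ℕ) : ℕ := if n % 2 = 0 then n / 2 else if n % 4 = 1 then (n + 1) / 2 else (3 * n + 1) / 2

/-- The least term of the orbit of `n`. -/
noncomputable def orbitMin (n : ℕ) : ℕ := sInf (Set.range fun k => V^[k] n)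

theorem result : ∃ w : ℕ → ℝ, (∀ a, 0 ≤ w a) ∧ HasSum w 1 ∧
    (∀ A : Set ℕ, Tendsto (fun x : ℕ => (({n | orbitMin n ∈ A} ∩ Set.Icc 1 x).ncard : ℝ) / x) atTop
      (𝓝 (∑' a, A.indicator w a))) ∧
    ∀ a, 0 < w a ↔ orbitMin a = a ∧ (a % 6 = 3 ∨ a % 6 = 5) := by
  obtain ⟨w, h0, h1, h2, h3⟩ := CzD.main_mn
  refine ⟨w, h0, h1, fun A => ?_, h3⟩
  have e : ∀ (S : Set ℕ) (x : ℕ), (S ∩ Set.Icc 1 x).ncard = CzD.cnt S x := by
    intro S x
    rw [CzD.cnt, ← Set.ncard_coe_finset]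
    congr 1
    ext z
    simp only [Set.mem_inter_iff, Set.mem_Icc, Finset.coe_filter, Finset.mem_Icc,
      Set.mem_ofPred_eq]
    exact and_comm
  simp only [e]
  exact h2 A

end Pool.Agent.Results.MP_2efb47_nt.MinimumLaw
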